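import Mathlib

set_option autoImplicit false

/-!
# A two-parameter family of bases that are not almost variational frequency bases

For integers `m ≥ 3` and `k ≥ 2` let `β ∈ (m - 1, m)` be the base with
`β ^ k = (m - 1) (β ^ (k - 1) + ⋯ + β + 1)`, digits `0, …, m - 1`.  The words `j (m-1)^k` and
`(j+1) 0^k` have the same value.  Rewriting `d 0^k` (with `1 ≤ d ≤ m - 2`) to `(d-1) (m-1)^k` and
`(m-2) (m-1)^k` to `(m-1) 0^k` never increases the number of middle digits `1, …, m - 2`, and the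
reduced words are counted, with the weight `exp (-s)` for every middle digit, by an explicit
supersolution of the transfer recursion (`step`): all its inequalities reduce to the single
inequality `Λ ^ k (2 + (m-2) θ - Λ) ≤ (m-1) θ`.
-/

open MeasureTheory Filter Topology Set

namespace Pool.Agent.Results.MP_842b9f_an.MultinacciBases

/-! ### Definitions -/

/-- `ε` is a `β`-expansion of `x` with digits `0, …, ⌈β⌉ - 1`. -/
def IsExpansion (β : ℝ) (ε : ℕ → ℕ) (x : ℝ) : Prop :=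
  (∀ i, ε i < ⌈β⌉₊) ∧ HasSum (fun i => (ε i : ℝ) / β ^ (i + 1)) x

/-- The digit `j` has frequency `p` in `ε`. -/
def HasFreq (ε : ℕ → ℕ) (j : ℕ) (p : ℝ) : Prop :=
  Tendsto (fun n : ℕ => (Nat.count (fun i => ε i = j) n : ℝ) / n) atTop (𝓝 p)

/-- `β` is an almost variational frequency base. -/
def AlmostVariational (β : ℝ) : Prop :=
  ∃ c > (0 : ℝ), ∀ p : ℕ → ℝ,
    (∀ j < ⌈β⌉₊, p j ∈ Icc (1 / (⌈β⌉₊ : ℝ) - c) (1 / (⌈β⌉₊ : ℝ) + c)) →
    ∑ j ∈ Finset.range ⌈β⌉₊, p j = 1 →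
    ∀ᵐ x ∂(volume.restrict (Icc 0 (((⌈β⌉₊ : ℝ) - 1) / (β - 1)))),
      ∃ ε, IsExpansion β ε x ∧ ∀ j < ⌈β⌉₊, HasFreq ε j (p j)

/-! ### Words -/

section words

variable (β : ℝ) (μ k : ℕ)

/-- The value of a finite word. -/
noncomputable def val : List ℕ → ℝ
  | [] => 0
  | d :: w => (d + val w) / β

/-- Number of leading letters `c`. -/
def lead (c : ℕ) : List ℕ → ℕ
  | [] => 0
  | d :: w => if d = c then lead c w + 1 else 0

/-- Number of middle digits `1, …, μ + 1`. -/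
def mid : List ℕ → ℕ
  | [] => 0
  | d :: w => (if 1 ≤ d ∧ d ≤ μ + 1 then 1 else 0) + mid w

/-- The potential that decreases under rewriting. -/
def pot : List ℕ → ℕ
  | [] => 0
  | d :: w => (if d = μ + 2 then 0 else d) + pot w

/-- The digit `d` may be put in front of `w`. -/
def ok (d : ℕ) (w : List ℕ) : Prop :=
  ¬ ((1 ≤ d ∧ d ≤ μ + 1) ∧ k ≤ lead 0 w) ∧ ¬ (d = μ + 1 ∧ k ≤ lead (μ + 2) w)

instance (d : ℕ) (w : List ℕ) : Decidable (ok μ k d w) := by unfold ok; infer_instance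

/-- Reduced words of length `n`. -/
def G : ℕ → Finset (List ℕ)
  | 0 => {[]}
  | n + 1 => (G n).biUnion fun w =>
      ((Finset.range (μ + 3)).filter (ok μ k · w)).image (· :: w)

theorem lead_exists (c : ℕ) : ∀ (j : ℕ) (w : List ℕ), j ≤ lead c w →
    ∃ r, w = List.replicate j c ++ r := by
  intro j
  induction j with
  | zero => intro w _; exact ⟨w, rfl⟩
  | succ j ih =>
    intro w h
    cases w with
    | nil => simp [lead] at h
    | cons d w =>
      by_cases hd : d = c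
      · simp only [lead, hd, if_true] at h
        obtain ⟨r, hr⟩ := ih w (by omega)
        exact ⟨r, by rw [hd, List.replicate_succ, List.cons_append, ← hr]⟩
      · simp [lead, hd] at h

theorem lead_or (w : List ℕ) : lead 0 w = 0 ∨ lead (μ + 2) w = 0 := by
  cases w with
  | nil => left; rfl
  | cons d w =>
    by_cases hd : d = 0
    · right; simp [lead, hd]
    · left; simp [lead, hd]

theorem mid_rep_zero (j : ℕ) (r : List ℕ) : mid μ (List.replicate j 0 ++ r) = mid μ r := by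
  induction j with
  | zero => rfl
  | succ j ih => rw [List.replicate_succ, List.cons_append, mid, ih]; simp

theorem mid_rep_top (j : ℕ) (r : List ℕ) : mid μ (List.replicate j (μ + 2) ++ r) = mid μ r := by
  induction j with
  | zero => rfl
  | succ j ih => rw [List.replicate_succ, List.cons_append, mid, ih]; simp

theorem pot_rep_zero (j : ℕ) (r : List ℕ) : pot μ (List.replicate j 0 ++ r) = pot μ r := by
  induction j with
  | zero => rfl
  | succ j ih => rw [List.replicate_succ, List.cons_append, pot, ih]; simp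

theorem pot_rep_top (j : ℕ) (r : List ℕ) : pot μ (List.replicate j (μ + 2) ++ r) = pot μ r := by
  induction j with
  | zero => rfl
  | succ j ih => rw [List.replicate_succ, List.cons_append, pot, ih]; simp

variable {β μ k}

theorem val_rep (hβ : 0 < β) (c : ℕ) (r : List ℕ) (j : ℕ) :
    val β (List.replicate j c ++ r) * β ^ j = c * ∑ i ∈ Finset.range j, β ^ i + val β r := by
  induction j with
  | zero => simp
  | succ j ih =>
    rw [List.replicate_succ, List.cons_append, val, Finset.sum_range_succ, mul_add, pow_succ]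
    field_simp
    rw [add_mul, ih]
    ring

theorem rel (hβ : 0 < β) (hk : β ^ k = ((μ + 2 : ℕ) : ℝ) * ∑ i ∈ Finset.range k, β ^ i) (e : ℕ)
    (r : List ℕ) :
    val β (e :: (List.replicate k (μ + 2) ++ r)) = val β ((e + 1) :: (List.replicate k 0 ++ r)) := by
  have h1 := val_rep hβ (μ + 2) r k
  have h2 := val_rep hβ 0 r k
  have hp : 0 < β ^ k := pow_pos hβ _
  have h3 : val β (List.replicate k (μ + 2) ++ r) = 1 + val β (List.replicate k 0 ++ r) := by
    apply mul_right_cancel₀ hp.ne'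
    rw [h1, add_mul, h2, ← hk]
    push_cast
    ring
  rw [val, val, h3]
  push_cast
  ring

theorem rewrite (hβ : 0 < β) (hk : β ^ k = ((μ + 2 : ℕ) : ℝ) * ∑ i ∈ Finset.range k, β ^ i)
    (w : List ℕ) (hw : ∀ d ∈ w, d < μ + 3) (h : w ∉ G μ k w.length) :
    ∃ v : List ℕ, (∀ d ∈ v, d < μ + 3) ∧ v.length = w.length ∧ val β v = val β w ∧
      mid μ v ≤ mid μ w ∧ pot μ v < pot μ w := by
  induction w with
  | nil => simp [G] at h
  | cons d w ih =>
    have hw' : ∀ e ∈ w, e < μ + 3 := fun e he => hw e (List.mem_cons_of_mem _ he)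
    by_cases h1 : w ∈ G μ k w.length
    · have h2 : ¬ ok μ k d w := fun h2 => h (by
        simp only [G, List.length_cons, Finset.mem_biUnion, Finset.mem_image, Finset.mem_filter,
          Finset.mem_range]
        exact ⟨w, h1, d, ⟨hw d List.mem_cons_self, h2⟩, rfl⟩)
      unfold ok at h2
      rw [not_and_or, not_not, not_not] at h2
      rcases h2 with ⟨⟨h3, h4⟩, h5⟩ | ⟨h3, h5⟩
      · obtain ⟨r, rfl⟩ := lead_exists 0 k w h5
        obtain ⟨e, rfl⟩ : ∃ e, d = e + 1 := ⟨d - 1, by omega⟩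
        refine ⟨e :: (List.replicate k (μ + 2) ++ r), ?_, by simp, rel hβ hk e r, ?_, ?_⟩
        · intro x hx
          rcases List.mem_cons.1 hx with rfl | hx
          · omega
          · rcases List.mem_append.1 hx with hx | hx
            · rw [(List.mem_replicate.1 hx).2]; omega
            · exact hw' x (List.mem_append_right _ hx)
        · rw [mid, mid, mid_rep_zero, mid_rep_top]
          split_ifs <;> omega
        · rw [pot, pot, pot_rep_zero, pot_rep_top, if_neg (by omega), if_neg (by omega)]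
          omega
      · obtain ⟨r, rfl⟩ := lead_exists (μ + 2) k w h5
        subst h3
        refine ⟨(μ + 1 + 1) :: (List.replicate k 0 ++ r), ?_, by simp, (rel hβ hk (μ + 1) r).symm,
          ?_, ?_⟩
        · intro x hx
          rcases List.mem_cons.1 hx with rfl | hx
          · omega
          · rcases List.mem_append.1 hx with hx | hx
            · rw [(List.mem_replicate.1 hx).2]; omega
            · exact hw' x (List.mem_append_right _ hx)
        · rw [mid, mid, mid_rep_zero, mid_rep_top]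
          split_ifs <;> omega
        · rw [pot, pot, pot_rep_zero, pot_rep_top, if_pos rfl, if_neg (by omega)]
          omega
    · obtain ⟨v, h2, h3, h4, h5, h6⟩ := ih hw' h1
      refine ⟨d :: v, ?_, by simp [h3], by simp [val, h4], ?_, ?_⟩
      · intro e he
        rcases List.mem_cons.1 he with rfl | he
        · exact hw _ List.mem_cons_self
        · exact h2 e he
      · simp only [mid]; omega
      · simp only [pot]; omega

theorem normal (hβ : 0 < β) (hk : β ^ k = ((μ + 2 : ℕ) : ℝ) * ∑ i ∈ Finset.range k, β ^ i)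
    (K : ℕ) : ∀ w : List ℕ, pot μ w < K → (∀ d ∈ w, d < μ + 3) →
    ∃ v ∈ G μ k w.length, val β v = val β w ∧ mid μ v ≤ mid μ w := by
  induction K with
  | zero => simp
  | succ K ih =>
    intro w hK hw
    by_cases h : w ∈ G μ k w.length
    · exact ⟨w, h, rfl, le_rfl⟩
    · obtain ⟨v, h2, h3, h4, h5, h6⟩ := rewrite hβ hk w hw h
      obtain ⟨v', h7, h8, h9⟩ := ih v (by omega) h2
      exact ⟨v', h3 ▸ h7, h8.trans h4, h9.trans h5⟩

end words

/-! ### The supersolution -/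

section weights

variable (μ k : ℕ) (s Λ : ℝ)

/-- The weight of a word, as a function of its numbers of leading digits `0` and `μ + 2`. -/
noncomputable def psi (w : List ℕ) : ℝ :=
  1 - Real.exp (-s) / Λ ^ k / (Λ - 1) * ((μ + 1) * (Λ ^ min k (lead 0 w) - 1) +
    (Λ ^ min k (lead (μ + 2) w) - 1))

/-- The weight, including the factor for the middle digits. -/
noncomputable def uu (w : List ℕ) : ℝ := Real.exp (-s * mid μ w) * psi μ k s Λ w

variable {μ k s Λ}

theorem step (hk : 1 ≤ k) (hΛ : 1 < Λ)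
    (hI : Λ ^ k * (2 + (μ + 1) * Real.exp (-s) - Λ) ≤ (μ + 2) * Real.exp (-s)) (w : List ℕ) :
    ∑ d ∈ (Finset.range (μ + 3)).filter (ok μ k · w), uu μ k s Λ (d :: w) ≤ Λ * uu μ k s Λ w := by
  have hT : 0 < Real.exp (-s * mid μ w) := Real.exp_pos _
  have hθ : 0 < Real.exp (-s) := Real.exp_pos _
  have hmid : ∀ d, (1 ≤ d ∧ d ≤ μ + 1) →
      uu μ k s Λ (d :: w) = Real.exp (-s * mid μ w) * Real.exp (-s) := by
    intro d hd
    have h0 : lead 0 (d :: w) = 0 := by simp only [lead]; rw [if_neg (by omega)]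
    have h1 : lead (μ + 2) (d :: w) = 0 := by simp only [lead]; rw [if_neg (by omega)]
    rw [uu, psi, h0, h1, mid, if_pos hd, ← Real.exp_add]
    push_cast
    simp
    ring
  have hzero : uu μ k s Λ (0 :: w) = Real.exp (-s * mid μ w) *
      (1 - Real.exp (-s) / Λ ^ k / (Λ - 1) * ((μ + 1) * (Λ ^ min k (lead 0 w + 1) - 1))) := by
    rw [uu, psi, mid, if_neg (by omega)]
    simp [lead]
  have htop : uu μ k s Λ ((μ + 2) :: w) = Real.exp (-s * mid μ w) *
      (1 - Real.exp (-s) / Λ ^ k / (Λ - 1) * (Λ ^ min k (lead (μ + 2) w + 1) - 1)) := by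
    rw [uu, psi, mid, if_neg (by omega)]
    simp [lead]
  have ok0 : ok μ k 0 w := by unfold ok; constructor <;> omega
  have ok2 : ok μ k (μ + 2) w := by unfold ok; constructor <;> omega
  rw [Finset.sum_filter, Finset.sum_range_succ, Finset.sum_range_succ', if_pos ok0, if_pos ok2,
    hzero, htop, uu, psi]
  -- the common slack
  have hΛ1 : 0 < Λ - 1 := by linarith
  have hΛk : 0 < Λ ^ k := by positivity
  set θ := Real.exp (-s) with hθdef
  set T := Real.exp (-s * mid μ w) with hTdef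
  set q : ℝ := θ / Λ ^ k / (Λ - 1) with hq
  have hqt : q * (Λ - 1) = θ / Λ ^ k := by rw [hq]; field_simp
  have hqk : q * (Λ - 1) * Λ ^ k = θ := by rw [hqt]; field_simp
  have hslack : 0 ≤ Λ - 2 - (μ + 1) * θ + (μ + 2) * (q * (Λ - 1)) := by
    have h1 : 2 + (μ + 1) * θ - Λ ≤ (μ + 2) * θ / Λ ^ k := by
      rw [le_div_iff₀ hΛk]; linarith
    have h2 : (μ + 2) * θ / Λ ^ k = (μ + 2) * (q * (Λ - 1)) := by rw [hqt]; ring
    linarith
  by_cases ha : k ≤ lead 0 w
  · -- all middle digits are forbidden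
    have hc : lead (μ + 2) w = 0 := by
      rcases lead_or μ w with h | h
      · omega
      · exact h
    have hs0 : ∑ i ∈ Finset.range (μ + 1), (if ok μ k (i + 1) w then uu μ k s Λ ((i + 1) :: w)
        else 0) = 0 := by
      refine Finset.sum_eq_zero fun i hi => if_neg ?_
      rw [Finset.mem_range] at hi
      exact fun h => h.1 ⟨⟨by omega, by omega⟩, ha⟩
    rw [hs0, hc, min_eq_left ha, min_eq_left (by omega : k ≤ lead 0 w + 1),
      min_eq_right (by omega : (0 : ℕ) ≤ k), min_eq_right (by omega : 0 + 1 ≤ k)]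
    have key : Λ * (1 - q * ((μ + 1) * (Λ ^ k - 1) + (Λ ^ 0 - 1))) -
        ((1 - q * ((μ + 1) * (Λ ^ k - 1))) + (1 - q * (Λ ^ (0 + 1) - 1))) =
        Λ - 2 - (μ + 1) * θ + (μ + 2) * (q * (Λ - 1)) := by
      rw [← hqk]; ring
    have := mul_nonneg hT.le hslack
    rw [← key] at this
    linarith
  · rw [not_le] at ha
    by_cases hc : k ≤ lead (μ + 2) w
    · have ha0 : lead 0 w = 0 := by
        rcases lead_or μ w with h | h
        · exact h
        · omega
      have hs1 : ∑ i ∈ Finset.range (μ + 1), (if ok μ k (i + 1) w then uu μ k s Λ ((i + 1) :: w)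
          else 0) ≤ μ * (T * θ) := by
        rw [Finset.sum_range_succ, if_neg (fun h => h.2 ⟨rfl, hc⟩), add_zero]
        refine (Finset.sum_le_card_nsmul _ _ (T * θ) fun i hi => ?_).trans ?_
        · rw [Finset.mem_range] at hi
          split_ifs
          · rw [hmid _ ⟨by omega, by omega⟩]
          · positivity
        · simp
      rw [ha0, min_eq_left hc, min_eq_left (by omega : k ≤ lead (μ + 2) w + 1),
        min_eq_right (by omega : (0 : ℕ) ≤ k), min_eq_right (by omega : 0 + 1 ≤ k)]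
      have key : Λ * (1 - q * ((μ + 1) * (Λ ^ 0 - 1) + (Λ ^ k - 1))) -
          (μ * θ + (1 - q * ((μ + 1) * (Λ ^ (0 + 1) - 1))) + (1 - q * (Λ ^ k - 1))) =
          Λ - 2 - (μ + 1) * θ + (μ + 2) * (q * (Λ - 1)) := by
        rw [← hqk]; ring
      have := mul_nonneg hT.le hslack
      rw [← key] at this
      linarith
    · rw [not_le] at hc
      have hs2 : ∑ i ∈ Finset.range (μ + 1), (if ok μ k (i + 1) w then uu μ k s Λ ((i + 1) :: w)
          else 0) ≤ (μ + 1) * (T * θ) := by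
        refine (Finset.sum_le_card_nsmul _ _ (T * θ) fun i hi => ?_).trans ?_
        · rw [Finset.mem_range] at hi
          split_ifs
          · rw [hmid _ ⟨by omega, by omega⟩]
          · positivity
        · simp
      rw [min_eq_right ha.le, min_eq_right hc.le, min_eq_right (by omega : lead 0 w + 1 ≤ k),
        min_eq_right (by omega : lead (μ + 2) w + 1 ≤ k)]
      generalize lead 0 w = a
      generalize lead (μ + 2) w = c
      have key : Λ * (1 - q * ((μ + 1) * (Λ ^ a - 1) + (Λ ^ c - 1))) -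
          ((μ + 1) * θ + (1 - q * ((μ + 1) * (Λ ^ (a + 1) - 1))) + (1 - q * (Λ ^ (c + 1) - 1))) =
          Λ - 2 - (μ + 1) * θ + (μ + 2) * (q * (Λ - 1)) := by
        ring
      have := mul_nonneg hT.le hslack
      rw [← key] at this
      linarith

/-- A positive lower bound for `psi`. -/
theorem psi_pos (hk : 1 ≤ k) (hΛ : 2 < Λ) (hs : 0 ≤ s)
    (hI : Λ ^ k * (2 + (μ + 1) * Real.exp (-s) - Λ) ≤ (μ + 2) * Real.exp (-s)) :
    ∃ c > 0, ∀ w, c ≤ psi μ k s Λ w := by
  have hθ : 0 < Real.exp (-s) := Real.exp_pos _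
  have hθ1 : Real.exp (-s) ≤ 1 := by rw [Real.exp_le_one_iff]; linarith
  have hΛ1 : 0 < Λ - 1 := by linarith
  have hΛk : 0 < Λ ^ k := by positivity
  have hΛk1 : 1 < Λ ^ k := one_lt_pow₀ (by linarith) (by omega)
  unfold psi
  set θ := Real.exp (-s) with hθdef
  set q : ℝ := θ / Λ ^ k / (Λ - 1) with hq
  have hq0 : 0 < q := by positivity
  have hqt : q * (Λ - 1) = θ / Λ ^ k := by rw [hq]; field_simp
  have hqk : q * (Λ - 1) * Λ ^ k = θ := by rw [hqt]; field_simp
  have ht1 : θ / Λ ^ k < 1 := by rw [div_lt_one hΛk]; linarith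
  have hslack : 0 ≤ Λ - 2 - (μ + 1) * θ + (μ + 2) * (q * (Λ - 1)) := by
    have h1 : 2 + (μ + 1) * θ - Λ ≤ (μ + 2) * θ / Λ ^ k := by
      rw [le_div_iff₀ hΛk]; linarith
    have h2 : (μ + 2) * θ / Λ ^ k = (μ + 2) * (q * (Λ - 1)) := by rw [hqt]; ring
    linarith
  have hz : 0 < 1 - q * ((μ + 1) * (Λ ^ k - 1)) := by
    have h1 : (Λ - 1) * (1 - q * ((μ + 1) * (Λ ^ k - 1))) =
        (Λ - 2 - (μ + 1) * θ + (μ + 2) * (q * (Λ - 1))) + (1 - q * (Λ - 1)) := by
      rw [← hqk]; ring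
    have h2 : 0 < (Λ - 1) * (1 - q * ((μ + 1) * (Λ ^ k - 1))) := by
      rw [h1, hqt]; rw [hqt] at hslack; linarith
    exact (mul_pos_iff_of_pos_left hΛ1).mp h2
  have hn : 0 < 1 - q * (Λ ^ k - 1) := by
    have h1 : (Λ - 1) * (1 - q * (Λ ^ k - 1)) = (Λ - 1) - θ + q * (Λ - 1) := by
      rw [← hqk]; ring
    have h2 : 0 < (Λ - 1) * (1 - q * (Λ ^ k - 1)) := by
      rw [h1]
      have : 0 < q * (Λ - 1) := by positivity
      linarith
    exact (mul_pos_iff_of_pos_left hΛ1).mp h2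
  refine ⟨min (1 - q * ((μ + 1) * (Λ ^ k - 1))) (1 - q * (Λ ^ k - 1)), lt_min hz hn, fun w => ?_⟩
  have hpow : ∀ a : ℕ, Λ ^ min k a ≤ Λ ^ k := fun a =>
    pow_le_pow_right₀ (by linarith) (min_le_left _ _)
  rcases lead_or μ w with h | h
  · refine (min_le_right _ _).trans ?_
    rw [h, min_eq_right (by omega : 0 ≤ k), pow_zero]
    have := mul_le_mul_of_nonneg_left (hpow (lead (μ + 2) w)) hq0.le
    nlinarith
  · refine (min_le_left _ _).trans ?_
    rw [h, min_eq_right (by omega : 0 ≤ k), pow_zero]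
    have h1 := mul_le_mul_of_nonneg_left (hpow (lead 0 w)) (by positivity : 0 ≤ q * (μ + 1))
    nlinarith

theorem sum_biUnion_le {α γ : Type} [DecidableEq γ] (s : Finset α) (t : α → Finset γ) (f : γ → ℝ)
    (hf : ∀ x, 0 ≤ f x) : ∑ x ∈ s.biUnion t, f x ≤ ∑ a ∈ s, ∑ x ∈ t a, f x := by
  classical
  induction s using Finset.induction_on with
  | empty => simp
  | insert a s ha ih =>
    rw [Finset.biUnion_insert, Finset.sum_insert ha]
    have := Finset.sum_union_inter (s₁ := t a) (s₂ := s.biUnion t) (f := f)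
    have h2 := Finset.sum_nonneg (s := t a ∩ s.biUnion t) fun x _ => hf x
    linarith

theorem sum_G (hk : 1 ≤ k) (hΛ : 1 < Λ)
    (hI : Λ ^ k * (2 + (μ + 1) * Real.exp (-s) - Λ) ≤ (μ + 2) * Real.exp (-s))
    (hpos : ∀ w, 0 ≤ uu μ k s Λ w) (n : ℕ) : ∑ w ∈ G μ k n, uu μ k s Λ w ≤ Λ ^ n := by
  induction n with
  | zero => simp [G, uu, mid, psi, lead]
  | succ n ih =>
    refine (sum_biUnion_le _ _ _ hpos).trans ?_
    refine (Finset.sum_le_sum (g := fun w => Λ * uu μ k s Λ w) fun w _ => ?_).trans ?_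
    · rw [Finset.sum_image fun x _ y _ h => (List.cons.inj h).1]
      exact step hk hΛ hI w
    · rw [← Finset.mul_sum, pow_succ, mul_comm]
      exact mul_le_mul_of_nonneg_right ih (by linarith)

end weights

/-! ### The choice of the parameter -/

section base

variable {μ k : ℕ} {β : ℝ}

/-- Basic facts on the base. -/
theorem base_facts (hk : 2 ≤ k) (hβ : 1 < β)
    (hβk : β ^ k = ((μ + 2 : ℕ) : ℝ) * ∑ i ∈ Finset.range k, β ^ i) :
    (μ : ℝ) + 2 < β ∧ β < μ + 3 ∧ β ^ k * (μ + 3 - β) = μ + 2 ∧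
      0 < β - k * (μ + 3 - β) := by
  have hμ : (0 : ℝ) ≤ μ := Nat.cast_nonneg _
  have hβ0 : 0 < β := by linarith
  have hgeo : (∑ i ∈ Finset.range k, β ^ i) * (β - 1) = β ^ k - 1 := geom_sum_mul β k
  push_cast at hβk
  have h1 : β ^ k * (μ + 3 - β) = μ + 2 := by
    have h2 : β ^ k * (β - 1) = (μ + 2) * (β ^ k - 1) := by rw [← hgeo]; rw [hβk]; ring
    linarith
  have hkpos : 0 < β ^ k := pow_pos hβ0 _
  have h2 : β < μ + 3 := by
    have h3 : 0 < β ^ k * (μ + 3 - β) := by rw [h1]; linarith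
    have := (mul_pos_iff_of_pos_left hkpos).mp h3
    linarith
  have h3 : (μ : ℝ) + 2 < β := by
    obtain ⟨j, rfl⟩ : ∃ j, k = j + 1 := ⟨k - 1, by omega⟩
    have hj : 0 < ∑ i ∈ Finset.range j, β ^ i :=
      Finset.sum_pos (fun i _ => pow_pos hβ0 i) ⟨0, by rw [Finset.mem_range]; omega⟩
    rw [Finset.sum_range_succ, pow_succ] at hβk
    have hjp : 0 < β ^ j := pow_pos hβ0 _
    have h4 : 0 < β ^ j * (β - (μ + 2)) := by
      have : β ^ j * (β - (μ + 2)) = (μ + 2) * ∑ i ∈ Finset.range j, β ^ i := by linarith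
      rw [this]; positivity
    have := (mul_pos_iff_of_pos_left hjp).mp h4
    linarith
  refine ⟨h3, h2, h1, ?_⟩
  have h4 : ((k : ℕ) : ℝ) < 2 ^ k := by exact_mod_cast (Nat.lt_two_pow_self (n := k))
  have h5 : (2 : ℝ) ^ k ≤ β ^ k := pow_le_pow_left₀ (by norm_num) (by linarith) k
  have h6 : 0 < β ^ k * (β - k * (μ + 3 - β)) := by
    have h7 : β ^ k * (β - k * (μ + 3 - β)) = β ^ k * β - k * (μ + 2) := by
      rw [← h1]; ring
    rw [h7]
    have h8 : (k : ℝ) * (μ + 2) < β ^ k * β := by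
      have h9 : (k : ℝ) < β ^ k := by linarith
      have h10 : (0 : ℝ) ≤ k := Nat.cast_nonneg _
      nlinarith
    linarith
  exact (mul_pos_iff_of_pos_left hkpos).mp h6

/-- Below the critical frequency there is an admissible parameter. -/
theorem exists_param (hk : 2 ≤ k) (hβ : 1 < β)
    (hβk : β ^ k = ((μ + 2 : ℕ) : ℝ) * ∑ i ∈ Finset.range k, β ^ i) {r : ℝ}
    (hr : r < (β - 2) / (β - k * (μ + 3 - β))) :
    ∃ s Λ : ℝ, 0 < s ∧ 2 < Λ ∧ Λ * Real.exp (s * r) < β ∧
      Λ ^ k * (2 + (μ + 1) * Real.exp (-s) - Λ) ≤ (μ + 2) * Real.exp (-s) := by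
  obtain ⟨hb1, hb2, hb3, hb4⟩ := base_facts hk hβ hβk
  have hμ : (0 : ℝ) ≤ μ := Nat.cast_nonneg _
  obtain ⟨r', hr1, hr2⟩ := exists_between hr
  rw [lt_div_iff₀ hb4] at hr2
  have hβ0 : 0 < β := by linarith
  have hkpos : 0 < β ^ k := pow_pos hβ0 _
  let L : ℝ → ℝ := fun s => β * Real.exp (-s * r')
  let F : ℝ → ℝ := fun s => (μ + 2) * Real.exp (-s) - L s ^ k * (2 + (μ + 1) * Real.exp (-s) - L s)
  have hL0 : L 0 = β := by simp [L]
  have hF0 : F 0 = 0 := by
    simp only [F, hL0, neg_zero, Real.exp_zero, mul_one]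
    linarith
  have hE : HasDerivAt (fun s : ℝ => Real.exp (-s)) (-1) 0 := by
    have := (hasDerivAt_neg (0 : ℝ)).exp
    simpa using this
  have hL : HasDerivAt L (-(β * r')) 0 := by
    have h1 : HasDerivAt (fun s : ℝ => -s * r') (-1 * r') 0 := (hasDerivAt_neg (0 : ℝ)).mul_const r'
    have h2 := (h1.exp).const_mul β
    have h3 : β * (Real.exp (-0 * r') * (-1 * r')) = -(β * r') := by simp
    rw [h3] at h2
    exact h2
  have hF : HasDerivAt F ((μ + 2) * (-1) - ((k * L 0 ^ (k - 1) * (-(β * r'))) *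
      (2 + (μ + 1) * Real.exp (-0) - L 0) + L 0 ^ k * ((μ + 1) * (-1) - (-(β * r'))))) 0 := by
    exact (hE.const_mul (μ + 2 : ℝ)).sub ((hL.pow k).mul
      (((hE.const_mul (μ + 1 : ℝ)).const_add 2).sub hL))
  have hpos : 0 < (μ + 2) * (-1) - ((k * L 0 ^ (k - 1) * (-(β * r'))) *
      (2 + (μ + 1) * Real.exp (-0) - L 0) + L 0 ^ k * ((μ + 1) * (-1) - (-(β * r')))) := by
    rw [hL0, neg_zero, Real.exp_zero]
    obtain ⟨j, rfl⟩ : ∃ j, k = j + 1 := ⟨k - 1, by omega⟩
    rw [Nat.add_sub_cancel]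
    have e1 : (μ + 2) * (-1) - (((j + 1 : ℕ) : ℝ) * β ^ j * (-(β * r')) *
        (2 + (μ + 1) * 1 - β) + β ^ (j + 1) * ((μ + 1) * (-1) - (-(β * r')))) =
        β ^ (j + 1) * ((β - 2) - r' * (β - ((j + 1 : ℕ) : ℝ) * (μ + 3 - β))) := by
      have : (μ + 2 : ℝ) = β ^ (j + 1) * (μ + 3 - β) := hb3.symm
      rw [this, pow_succ]; ring
    rw [e1]
    exact mul_pos hkpos (by linarith)
  have hslope := (hasDerivAt_iff_tendsto_slope_zero.mp hF).eventually (lt_mem_nhds hpos)
  have hLc : ContinuousAt L 0 := hL.continuousAt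
  have hL2 : ∀ᶠ s in 𝓝 (0 : ℝ), 2 < L s := by
    have : Tendsto L (𝓝 0) (𝓝 β) := by rw [← hL0]; exact hLc
    exact this.eventually (lt_mem_nhds (by linarith))
  have hev : ∀ᶠ s in 𝓝[>] (0 : ℝ), 0 < s ∧ 2 < L s ∧ 0 < s⁻¹ • (F (0 + s) - F 0) := by
    have h1 : ∀ᶠ s in 𝓝[>] (0 : ℝ), 0 < s := self_mem_nhdsWithin
    have h2 : ∀ᶠ s in 𝓝[>] (0 : ℝ), 2 < L s := hL2.filter_mono nhdsWithin_le_nhds
    have h3 : ∀ᶠ s in 𝓝[>] (0 : ℝ), 0 < s⁻¹ • (F (0 + s) - F 0) :=
      hslope.filter_mono (nhdsWithin_mono (0 : ℝ) (fun x hx => (Set.mem_Ioi.1 hx).ne'))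
    filter_upwards [h1, h2, h3] with s a b c using ⟨a, b, c⟩
  obtain ⟨s, hs0, hs2, hs3⟩ := hev.exists
  refine ⟨s, L s, hs0, hs2, ?_, ?_⟩
  · have h1 : L s * Real.exp (s * r) = β * Real.exp (s * (r - r')) := by
      simp only [L]
      rw [mul_assoc, ← Real.exp_add]
      congr 2; ring
    rw [h1]
    have h2 : Real.exp (s * (r - r')) < 1 := by
      rw [Real.exp_lt_one_iff]
      nlinarith
    nlinarith
  · rw [hF0, zero_add, sub_zero, smul_eq_mul] at hs3
    have h1 := (mul_pos_iff_of_pos_left (inv_pos.mpr hs0)).mp hs3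
    simp only [F] at h1
    linarith

end base

/-! ### The measure estimate -/

section measure

variable {μ k : ℕ} {β : ℝ}

theorem val_pre (n : ℕ) : ∀ ε : ℕ → ℕ,
    val β ((List.range n).map ε) = ∑ i ∈ Finset.range n, (ε i : ℝ) / β ^ (i + 1) := by
  induction n with
  | zero => simp [val]
  | succ n ih =>
    intro ε
    rw [List.range_succ_eq_map, List.map_cons, List.map_map, val, ih, Finset.sum_range_succ',
      add_div, Finset.sum_div, add_comm]
    simp only [Function.comp_apply, Nat.succ_eq_add_one, zero_add, pow_one, div_div, ← pow_succ]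

theorem mid_append (u v : List ℕ) : mid μ (u ++ v) = mid μ u + mid μ v := by
  induction u with
  | nil => simp [mid]
  | cons d u ih => rw [List.cons_append, mid, mid, ih]; ring

theorem mid_pre (ε : ℕ → ℕ) (n : ℕ) :
    mid μ ((List.range n).map ε) = Nat.count (fun i => 1 ≤ ε i ∧ ε i ≤ μ + 1) n := by
  induction n with
  | zero => simp [mid]
  | succ n ih =>
    rw [List.range_succ, List.map_append, mid_append, ih, Nat.count_succ]
    simp [mid]

theorem ceil_base (hb1 : (μ : ℝ) + 2 < β) (hb2 : β < μ + 3) : ⌈β⌉₊ = μ + 3 := by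
  have hμ : (0 : ℝ) ≤ μ := Nat.cast_nonneg _
  rw [Nat.ceil_eq_iff (by omega)]
  constructor
  · push_cast [Nat.add_sub_cancel]; linarith
  · push_cast; linarith

/-- The set of the `x` close to the value of a reduced word with few middle digits. -/
def S (μ k : ℕ) (β r : ℝ) (n : ℕ) : Set ℝ :=
  ⋃ w ∈ (G μ k n).filter fun w => (mid μ w : ℝ) ≤ r * n,
    Icc (val β w) (val β w + (μ + 2) / (β - 1) / β ^ n)

theorem vol_S (hk : 1 ≤ k) (hβ : 1 < β) {r s Λ c : ℝ} (hs : 0 < s) (hΛ : 2 < Λ)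
    (hI : Λ ^ k * (2 + (μ + 1) * Real.exp (-s) - Λ) ≤ (μ + 2) * Real.exp (-s))
    (hc : 0 < c) (hcp : ∀ w, c ≤ psi μ k s Λ w) (n : ℕ) :
    volume (S μ k β r n) ≤
      ENNReal.ofReal ((μ + 2) / (β - 1) / c * (Λ * Real.exp (s * r) / β) ^ n) := by
  have hβ0 : 0 < β := by linarith
  have hβ1 : 0 < β - 1 := by linarith
  have hμ : (0 : ℝ) ≤ μ := Nat.cast_nonneg _
  refine (measure_biUnion_finset_le _ _).trans ?_
  simp only [Real.volume_Icc, add_sub_cancel_left, Finset.sum_const, nsmul_eq_mul]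
  rw [← ENNReal.ofReal_natCast, ← ENNReal.ofReal_mul (by positivity)]
  refine ENNReal.ofReal_le_ofReal ?_
  set F := (G μ k n).filter fun w => (mid μ w : ℝ) ≤ r * n
  have hpos : ∀ w, 0 ≤ uu μ k s Λ w := fun w =>
    mul_nonneg (Real.exp_pos _).le (hc.le.trans (hcp w))
  have h1 : ∑ _w ∈ F, Real.exp (-s * (r * n)) * c ≤ ∑ w ∈ F, uu μ k s Λ w := by
    refine Finset.sum_le_sum fun w hw => ?_
    refine mul_le_mul ?_ (hcp w) hc.le (Real.exp_pos _).le
    rw [Real.exp_le_exp]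
    have := (Finset.mem_filter.1 hw).2
    nlinarith
  have h2 : ∑ w ∈ F, uu μ k s Λ w ≤ Λ ^ n :=
    (Finset.sum_le_sum_of_subset_of_nonneg (Finset.filter_subset _ _)
      fun w _ _ => hpos w).trans (sum_G hk (by linarith) hI hpos n)
  rw [Finset.sum_const, nsmul_eq_mul] at h1
  have h3 : (F.card : ℝ) * (Real.exp (-s * (r * n)) * c) ≤ Λ ^ n := h1.trans h2
  have h4 : (F.card : ℝ) ≤ Λ ^ n * Real.exp (s * r) ^ n / c := by
    rw [le_div_iff₀ hc, ← Real.exp_nat_mul]
    have h5 : Real.exp (-s * (r * n)) * Real.exp (n * (s * r)) = 1 := by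
      rw [← Real.exp_add, Real.exp_eq_one_iff]; ring
    have h6 := mul_le_mul_of_nonneg_right h3 (Real.exp_pos (n * (s * r))).le
    have h7 : (F.card : ℝ) * (Real.exp (-s * (r * n)) * c) * Real.exp (n * (s * r)) =
        F.card * c * (Real.exp (-s * (r * n)) * Real.exp (n * (s * r))) := by ring
    rw [h7, h5, mul_one] at h6
    exact h6
  have h8 : 0 ≤ (μ + 2) / (β - 1) / β ^ n := by positivity
  refine (mul_le_mul_of_nonneg_right h4 h8).trans (le_of_eq ?_)
  rw [div_pow, mul_pow]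
  field_simp

/-- Almost every `x`: in every expansion the middle digits have lower frequency at least the
critical one. -/
theorem ae_mid (hk : 2 ≤ k) (hβ : 1 < β)
    (hβk : β ^ k = ((μ + 2 : ℕ) : ℝ) * ∑ i ∈ Finset.range k, β ^ i) {r : ℝ}
    (hr : r < (β - 2) / (β - k * (μ + 3 - β))) :
    ∀ᵐ x : ℝ, ∀ ε : ℕ → ℕ, IsExpansion β ε x →
      ∀ᶠ n : ℕ in atTop, r * n ≤ Nat.count (fun i => 1 ≤ ε i ∧ ε i ≤ μ + 1) n := by
  obtain ⟨hb1, hb2, hb3, hb4⟩ := base_facts hk hβ hβk
  obtain ⟨s, Λ, hs, hΛ, hlt, hI⟩ := exists_param hk hβ hβk hr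
  obtain ⟨c, hc, hcp⟩ := psi_pos (by omega : 1 ≤ k) hΛ hs.le hI
  have hβ0 : 0 < β := by linarith
  have hβ1 : 0 < β - 1 := by linarith
  have hμ : (0 : ℝ) ≤ μ := Nat.cast_nonneg _
  have hq : Λ * Real.exp (s * r) / β < 1 := by rw [div_lt_one hβ0]; exact hlt
  have hq0 : 0 ≤ Λ * Real.exp (s * r) / β := by positivity
  have h2 : ∀ᵐ x, ∀ᶠ n in atTop, x ∉ S μ k β r n := by
    refine ae_eventually_notMem (ne_top_of_le_ne_top ?_
      (ENNReal.tsum_le_tsum (vol_S (by omega : 1 ≤ k) hβ hs hΛ hI hc hcp)))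
    rw [← ENNReal.ofReal_tsum_of_nonneg (fun n => by positivity)
      ((summable_geometric_of_lt_one hq0 hq).mul_left _)]
    exact ENNReal.ofReal_ne_top
  filter_upwards [h2] with x hx ε hε
  have hceil := ceil_base hb1 hb2
  obtain ⟨h3, h4⟩ := hε
  rw [hceil] at h3
  filter_upwards [hx] with n hn
  by_contra hcon
  rw [not_le] at hcon
  obtain ⟨v, hv, hv1, hv2⟩ := normal hβ0 hβk _ ((List.range n).map ε) (Nat.lt_succ_self _) (by
    intro d hd
    obtain ⟨i, -, rfl⟩ := List.mem_map.1 hd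
    exact h3 i)
  rw [List.length_map, List.length_range] at hv
  rw [val_pre] at hv1
  rw [mid_pre] at hv2
  refine hn (mem_iUnion₂.2 ⟨v, Finset.mem_filter.2 ⟨hv, ?_⟩, ?_⟩)
  · have h5 : (mid μ v : ℝ) ≤ Nat.count (fun i => 1 ≤ ε i ∧ ε i ≤ μ + 1) n := by exact_mod_cast hv2
    linarith
  · have h12 := (hasSum_nat_add_iff' n).2 h4
    rw [← hv1] at h12
    have h13 := h12.nonneg fun i => by positivity
    have hgeo : HasSum (fun i : ℕ => (μ + 2) / β / β ^ n * (β⁻¹) ^ i)
        ((μ + 2) / β / β ^ n * (1 - β⁻¹)⁻¹) :=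
      (hasSum_geometric_of_lt_one (by positivity) (inv_lt_one_of_one_lt₀ hβ)).mul_left _
    have h14 := hasSum_le (fun i => ?_) h12 hgeo
    · have h15 : (μ + 2) / β / β ^ n * (1 - β⁻¹)⁻¹ = (μ + 2) / (β - 1) / β ^ n := by
        have : (1 - β⁻¹) = (β - 1) / β := by field_simp
        rw [this, inv_div]
        field_simp
      rw [h15] at h14
      exact ⟨by linarith, by linarith⟩
    · have h15 : (ε (i + n) : ℝ) ≤ μ + 2 := by
        have := Nat.lt_succ_iff.1 (h3 (i + n))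
        exact_mod_cast this
      have h16 : (μ + 2) / β / β ^ n * (β⁻¹) ^ i = (μ + 2) / β ^ (i + n + 1) := by
        rw [inv_pow, pow_succ, pow_add]
        field_simp
      rw [h16]
      exact div_le_div_of_nonneg_right h15 (by positivity)

theorem count_sum (ε : ℕ → ℕ) (n : ℕ) :
    Nat.count (fun i => 1 ≤ ε i ∧ ε i ≤ μ + 1) n =
      ∑ j ∈ Finset.Icc 1 (μ + 1), Nat.count (fun i => ε i = j) n := by
  induction n with
  | zero => simp
  | succ n ih =>
    simp only [Nat.count_succ]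
    rw [Finset.sum_add_distrib, ← ih, Finset.sum_ite_eq]
    congr 1
    simp only [Finset.mem_Icc]

theorem crit_ge (hk : 2 ≤ k) (hβ : 1 < β)
    (hβk : β ^ k = ((μ + 2 : ℕ) : ℝ) * ∑ i ∈ Finset.range k, β ^ i) :
    (μ + 1) / (μ + 3) ≤ (β - 2) / (β - k * (μ + 3 - β)) ∧
      (k * (μ + 1) ≠ 2 → (μ + 1) / (μ + 3) < (β - 2) / (β - k * (μ + 3 - β))) := by
  obtain ⟨hb1, hb2, hb3, hb4⟩ := base_facts hk hβ hβk
  have hμ : (0 : ℝ) ≤ μ := Nat.cast_nonneg _
  have h1 : (β - 2) * (μ + 3) - (μ + 1) * (β - k * (μ + 3 - β)) =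
      (μ + 3 - β) * (((k * (μ + 1) : ℕ) : ℝ) - 2) := by
    push_cast; ring
  have h2 : 2 ≤ k * (μ + 1) := by nlinarith
  have h3 : (2 : ℝ) ≤ ((k * (μ + 1) : ℕ) : ℝ) := by exact_mod_cast h2
  have h4 : 0 < μ + 3 - β := by linarith
  constructor
  · rw [div_le_div_iff₀ (by linarith) hb4]
    have := mul_nonneg h4.le (sub_nonneg.2 h3)
    linarith
  · intro h5
    have h6 : (2 : ℝ) < ((k * (μ + 1) : ℕ) : ℝ) := by
      have : 2 < k * (μ + 1) := by omega
      exact_mod_cast this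
    rw [div_lt_div_iff₀ (by linarith) hb4]
    have := mul_pos h4 (sub_pos.2 h6)
    linarith

theorem not_av (hk : 2 ≤ k) (hβ : 1 < β)
    (hβk : β ^ k = ((μ + 2 : ℕ) : ℝ) * ∑ i ∈ Finset.range k, β ^ i) :
    ¬ AlmostVariational β := by
  obtain ⟨hb1, hb2, hb3, hb4⟩ := base_facts hk hβ hβk
  have hμ : (0 : ℝ) ≤ μ := Nat.cast_nonneg _
  have hcr := (crit_ge hk hβ hβk).1
  have hceil := ceil_base hb1 hb2
  rintro ⟨c, hc, h⟩
  rw [hceil] at h
  set η : ℝ := c / (μ + 3) with hη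
  have hη0 : 0 < η := by positivity
  have hηc : η * (μ + 3) = c := by rw [hη]; field_simp
  let p : ℕ → ℝ := fun j => if 1 ≤ j ∧ j ≤ μ + 1 then 1 / (μ + 3) - η else 1 / (μ + 3) + (μ + 1) * η / 2
  have hmidp : ∀ j, (1 ≤ j ∧ j ≤ μ + 1) → p j = 1 / (μ + 3) - η := fun j hj => if_pos hj
  have hp0 : p 0 = 1 / (μ + 3) + (μ + 1) * η / 2 := if_neg (by omega)
  have hp2 : p (μ + 2) = 1 / (μ + 3) + (μ + 1) * η / 2 := if_neg (by omega)
  have h1 := h p ?_ ?_
  · obtain ⟨r, hr1, hr2⟩ : ∃ r, (μ + 1) / (μ + 3) - (μ + 1) * η < r ∧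
        r < (β - 2) / (β - k * (μ + 3 - β)) := by
      apply exists_between
      have : 0 < (μ + 1) * η := by positivity
      linarith
    have hae := ae_restrict_of_ae (s := Icc (0 : ℝ) ((((μ + 3 : ℕ) : ℝ) - 1) / (β - 1)))
      (ae_mid hk hβ hβk hr2)
    have : (ae (volume.restrict (Icc (0 : ℝ) ((((μ + 3 : ℕ) : ℝ) - 1) / (β - 1))))).NeBot := by
      rw [ae_restrict_neBot, Real.volume_Icc, ne_eq, ENNReal.ofReal_eq_zero, not_le, sub_zero]
      refine div_pos ?_ (by linarith)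
      push_cast; linarith
    obtain ⟨x, ⟨ε, hε, hfr⟩, hx⟩ := (h1.and hae).exists
    have h2 : Tendsto (fun n : ℕ => (Nat.count (fun i => 1 ≤ ε i ∧ ε i ≤ μ + 1) n : ℝ) / n) atTop
        (𝓝 (∑ j ∈ Finset.Icc 1 (μ + 1), p j)) := by
      have h3 : (fun n : ℕ => (Nat.count (fun i => 1 ≤ ε i ∧ ε i ≤ μ + 1) n : ℝ) / n) =
          fun n : ℕ => ∑ j ∈ Finset.Icc 1 (μ + 1), (Nat.count (fun i => ε i = j) n : ℝ) / n := by
        funext n
        rw [count_sum, Nat.cast_sum, Finset.sum_div]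
      rw [h3]
      refine tendsto_finsetSum _ fun j hj => hfr j ?_
      rw [Finset.mem_Icc] at hj
      omega
    have h4 : ∑ j ∈ Finset.Icc 1 (μ + 1), p j = (μ + 1) / (μ + 3) - (μ + 1) * η := by
      rw [Finset.sum_congr rfl fun j hj => hmidp j (Finset.mem_Icc.1 hj), Finset.sum_const,
        Nat.card_Icc, nsmul_eq_mul]
      push_cast [Nat.add_sub_cancel]
      ring
    rw [h4] at h2
    have h5 := (tendsto_order.1 h2).2 r hr1
    obtain ⟨n, h6, h7, h8⟩ := (h5.and ((hx ε hε).and (eventually_gt_atTop 0))).exists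
    have hn : (0 : ℝ) < n := by exact_mod_cast h8
    rw [div_lt_iff₀ hn] at h6
    linarith
  · intro j hj
    have h5 : (((μ + 3 : ℕ) : ℝ)) = μ + 3 := by push_cast; ring
    rw [h5]
    have h6 : (μ + 1) * η / 2 ≤ c := by nlinarith
    have h7 : η ≤ c := by nlinarith
    by_cases hm : 1 ≤ j ∧ j ≤ μ + 1
    · rw [hmidp j hm]; constructor <;> linarith
    · have : p j = 1 / (μ + 3) + (μ + 1) * η / 2 := if_neg hm
      rw [this]
      have : 0 ≤ (μ + 1) * η / 2 := by positivity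
      constructor <;> linarith
  · rw [Finset.sum_range_succ, Finset.sum_range_succ', hp0, hp2,
      Finset.sum_congr rfl fun i hi => hmidp (i + 1) ⟨by omega, by
        rw [Finset.mem_range] at hi; omega⟩, Finset.sum_const, Finset.card_range, nsmul_eq_mul]
    push_cast
    field_simp
    ring

/-- The base exists. -/
theorem exists_base (hk : 2 ≤ k) :
    ∃ β : ℝ, 1 < β ∧ β ^ k = ((μ + 2 : ℕ) : ℝ) * ∑ i ∈ Finset.range k, β ^ i := by
  have hμ : (0 : ℝ) ≤ μ := Nat.cast_nonneg _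
  let f : ℝ → ℝ := fun x => x ^ k - ((μ + 2 : ℕ) : ℝ) * ∑ i ∈ Finset.range k, x ^ i
  have hf : Continuous f := by fun_prop
  have h1 : f (μ + 2) ≤ 0 := by
    obtain ⟨j, rfl⟩ : ∃ j, k = j + 1 := ⟨k - 1, by omega⟩
    simp only [f]
    rw [Finset.sum_range_succ, pow_succ]
    have : 0 ≤ ∑ i ∈ Finset.range j, ((μ : ℝ) + 2) ^ i :=
      Finset.sum_nonneg fun i _ => by positivity
    push_cast
    nlinarith
  have h2 : 0 ≤ f (μ + 3) := by
    have hg : (∑ i ∈ Finset.range k, ((μ : ℝ) + 3) ^ i) * ((μ + 3) - 1) = (μ + 3) ^ k - 1 :=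
      geom_sum_mul _ k
    simp only [f]
    push_cast
    have : ((μ : ℝ) + 2) * ∑ i ∈ Finset.range k, ((μ : ℝ) + 3) ^ i = (μ + 3) ^ k - 1 := by
      rw [← hg]; ring
    rw [this]
    linarith
  obtain ⟨x, hx, hx0⟩ := intermediate_value_Icc (by linarith : (μ : ℝ) + 2 ≤ μ + 3)
    hf.continuousOn ⟨h1, h2⟩
  refine ⟨x, by linarith [hx.1], ?_⟩
  simp only [f] at hx0
  linarith

end measure

/-- **Bases that are not almost variational.**  Let `m ≥ 3` and `k ≥ 2`.  There is a base `β > 1`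
with `β ^ k = (m - 1) (β ^ (k - 1) + ⋯ + β + 1)`, and every such base satisfies:
`m - 1 < β < m` and `m - β < 1 / (m - 1) ^ (k - 1)`, so for fixed `m` these bases accumulate at `m`;
for almost every `x`, in every `β`-expansion of `x` the digits `1, …, m - 2` together have lower
frequency at least `ρ = (β - 2) / (β - k (m - β))`; `ρ ≥ (m - 2) / m`, with strict inequality
except for `m = 3`, `k = 2`; and `β` is not an almost variational frequency base. -/
theorem result (m k : ℕ) (hm : 3 ≤ m) (hk : 2 ≤ k) :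
    (∃ β : ℝ, 1 < β ∧ β ^ k = (m - 1) * ∑ i ∈ Finset.range k, β ^ i) ∧
    ∀ β : ℝ, 1 < β → β ^ k = (m - 1) * ∑ i ∈ Finset.range k, β ^ i →
      ((m : ℝ) - 1 < β ∧ β < m ∧ m - β < 1 / ((m : ℝ) - 1) ^ (k - 1)) ∧
      (∀ r < (β - 2) / (β - k * (m - β)), ∀ᵐ x : ℝ, ∀ ε : ℕ → ℕ, IsExpansion β ε x →
        ∀ᶠ n : ℕ in atTop, r * n ≤ Nat.count (fun i => 1 ≤ ε i ∧ ε i ≤ m - 2) n) ∧
      ((m : ℝ) - 2) / m ≤ (β - 2) / (β - k * (m - β)) ∧
      (¬ (m = 3 ∧ k = 2) → ((m : ℝ) - 2) / m < (β - 2) / (β - k * (m - β))) ∧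
      ¬ AlmostVariational β := by
  obtain ⟨μ, rfl⟩ : ∃ μ, m = μ + 3 := ⟨m - 3, by omega⟩
  have hμ : (0 : ℝ) ≤ μ := Nat.cast_nonneg _
  have e1 : (((μ + 3 : ℕ) : ℝ) - 1) = ((μ + 2 : ℕ) : ℝ) := by push_cast; ring
  have e2 : (((μ + 3 : ℕ) : ℝ)) = μ + 3 := by push_cast; ring
  have e3 : (((μ + 3 : ℕ) : ℝ) - 2) = μ + 1 := by push_cast; ring
  have e4 : μ + 3 - 2 = μ + 1 := by omega
  rw [e1, e3, e2, e4]
  refine ⟨exists_base hk, fun β hβ hβk => ?_⟩
  obtain ⟨hb1, hb2, hb3, hb4⟩ := base_facts hk hβ hβk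
  refine ⟨⟨?_, hb2, ?_⟩, fun r hr => ae_mid hk hβ hβk hr, (crit_ge hk hβ hβk).1, ?_,
    not_av hk hβ hβk⟩
  · push_cast; linarith
  · obtain ⟨j, rfl⟩ : ∃ j, k = j + 1 := ⟨k - 1, by omega⟩
    rw [Nat.add_sub_cancel, lt_div_iff₀ (by positivity)]
    push_cast
    have h1 : ((μ : ℝ) + 2) ^ j * (μ + 2) < β ^ (j + 1) := by
      rw [← pow_succ]
      exact pow_lt_pow_left₀ hb1 (by linarith) (by omega)
    have h2 : 0 < μ + 3 - β := by linarith
    have h3 := mul_lt_mul_of_pos_right h1 h2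
    rw [hb3] at h3
    have h4 : (μ + 3 - β) * (μ + 2) ^ j * ((μ : ℝ) + 2) < 1 * (μ + 2) := by linarith
    exact lt_of_mul_lt_mul_right h4 (by linarith)
  · intro h
    refine (crit_ge hk hβ hβk).2 fun h2 => h ?_
    have h3 : k * (μ + 1) = 2 := h2
    have h4 : μ = 0 := by
      by_contra h5
      have : 2 * 2 ≤ k * (μ + 1) := Nat.mul_le_mul hk (by omega)
      omega
    subst h4
    constructor
    · rfl
    · omega

end Pool.Agent.Results.MP_842b9f_an.MultinacciBases
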